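import Pool.Agent.Helper612.Fano.P_atlas_exists
import Pool.Agent.Helper612.Fano.P_atlas_irr
import Pool.Agent.Helper612.Fano.P_XX_closed
import Pool.Agent.Helper612.Fano.P_tang_dim
import Pool.Agent.Helper612.Fano.P_pic_exists
import Pool.Agent.Helper612.Fano.P_pic_unique
import Pool.Agent.Helper612.Fano.P_anti_exists
import Pool.Agent.Helper612.Fano.P_anti_degree
import Pool.Agent.Helper612.Fano.P_triv_XX
import Pool.Agent.Helper612.Fano.P_line_XX

set_option autoImplicit false

namespace Pool.Agent.Results.MP_b7b3c1_ag.FanoTrivialNormal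

open Fano612

/-- There are integers `k`, `n` with `2 < 2 * k ≤ n`, a smooth closed `n`-dimensional subvariety `X`
of a projective space over `ℂ` with `Pic X = ℤ · O_X(1)` and `-K_X ≅ O_X(d)`, `d > 0` (so `X` is a
Fano manifold of Picard number one), and a `k`-dimensional linear subspace contained in `X` whose
normal bundle in `X` is trivial. -/
theorem result : ∃ (k n : ℕ) (ι : Type) (_ : Fintype ι) (X : Set (ι → ℂ)) (d : ℤ)
    (W : Submodule ℂ (ι → ℂ)), 2 < 2 * k ∧ 2 * k ≤ n ∧ IsSmoothVar X n ∧ PicZ X ∧ 0 < d ∧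
      AntiCan X n d ∧ TrivialNormal X n k W := by
  obtain ⟨A, hA⟩ := atlas_exists
  have hP : PicZ XX := fun L => by
    obtain ⟨m, hm⟩ := pic_exists A L
    exact ⟨m, hm, fun m' hm' => pic_unique line_XX L hm' hm⟩
  obtain ⟨d, hd⟩ := anti_exists A hP
  obtain ⟨W, hW⟩ := triv_XX
  have h3 := anti_degree A (k := 2) (by norm_num) (by norm_num) hd hW
  refine ⟨2, 6, Ix, inferInstance, XX, d, W, by norm_num, by norm_num,
    ⟨XX_closed, atlas_irr A, fun v hv => ?_⟩, hP, by rw [h3]; norm_num, hd, hW⟩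
  obtain ⟨a, ha⟩ := A.cover v hv
  exact tang_dim (A.c a) ⟨hv, ha⟩

end Pool.Agent.Results.MP_b7b3c1_ag.FanoTrivialNormal
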