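import Mathlib
import Pool.Agent.Helper142.Lp.Statement
import Pool.Agent.Helper142.Lp.Final
import Pool.Agent.Helper142.Lp.Lam_inj
import Pool.Agent.Helper142.Lp.Lam_cone

/-!
# MP_b7b3c1_ag: a linear plane with trivial normal bundle in a Fano manifold of Picard number one

There is a smooth Fano variety `X ⊂ ℙ¹⁹` of dimension `6` with `Pic X = ℤ·O_X(1)` and
`ω_X = O_X(-3)` that contains a linear plane with trivial normal bundle.

`X` is the variety of three-dimensional commutative subalgebras `⟨1, A, B⟩` of `M₃(ℂ)`, with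
homogeneous coordinates the values of the cubic forms `v ↦ det(v, A v, B v)` and
`φ ↦ det(φ, φ A, φ B)` at ten vectors each.  All twenty standard affine charts of `X` are affine
spaces `𝔸⁶`.  The plane consists of the algebras `⟨1, e₃₃, A⟩`, `A ∈ sl₂`.

The definitions used in the statement are in `Pool.Agent.Helper142.Lp.Statement` and
`Pool.Agent.Helper142.Lp.Defs`.
-/

namespace Pool.Agent.Results.MP_b7b3c1_ag.PlaneTrivialNormal

open Pool.Agent.Helper142.Lp

/-- **Theorem.** There are integers `k`, `n` with `2 < 2k ≤ n`, an `n`-dimensional Fano manifold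
`X ⊂ ℙ^N` of Picard number one and a `k`-dimensional linear subspace of `X` whose normal bundle in
`X` is trivial. -/
theorem result : ∃ k n : ℕ, 2 < 2 * k ∧ 2 * k ≤ n ∧
    ∃ (ι K : Type) (_ : Fintype ι) (_ : Field K) (_ : Algebra ℂ K) (t : ι → K),
      St.IsFanoPicOne t n ∧
      ∃ L : Submodule ℂ (ι → ℂ), Module.finrank ℂ L = k + 1 ∧
        (L : Set (ι → ℂ)) ⊆ cone t ∧ St.TrivialNormal t L (n - k) := by
  refine ⟨2, 6, by norm_num, by norm_num, Fin 10 ⊕ Fin 10, KK, inferInstance, inferInstance,
    inferInstance, t0, Final.main, LinearMap.range lamL, ?_, ?_, Final.normal'⟩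
  · rw [LinearMap.finrank_range_of_inj Lam_inj.lam_inj]
    simp
  · rintro _ ⟨p, rfl⟩
    exact Lam_cone.lam_cone p

end Pool.Agent.Results.MP_b7b3c1_ag.PlaneTrivialNormal
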